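import Pool.Agent.helper12.DD.Spec

set_option autoImplicit false

open Pool.Agent.helper49.Blk

namespace Pool.Agent.DD

theorem IRF : IRF_stmt := by
  intro G _ _
  refine ⟨?_, ?_⟩
  · have h := linInd_Irr (G := G)
    have h2 : Finite (Irr G) := h.finite
    exact Set.toFinite _
  · rintro χ ⟨V, _, _, _, ρ, hρ, rfl⟩
    refine ⟨⟨Module.finrank ℂ V, ?_, ?_⟩, ?_⟩
    · have : Nontrivial V := by
        by_contra hn
        rw [not_nontrivial_iff_subsingleton] at hn
        have h1 : (⊥ : Subrepresentation ρ) = ⊤ := by
          apply SetLike.ext
          intro v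
          have : v = 0 := Subsingleton.elim _ _
          subst this
          exact ⟨fun _ => Submodule.mem_top, fun _ => Submodule.zero_mem _⟩
        exact bot_ne_top h1
      exact Module.finrank_pos
    · exact Representation.char_one ρ
    · intro g h
      exact Representation.char_conj ρ g h

end Pool.Agent.DD
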