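import Pool.Agent.helper12.DD.Spec

set_option autoImplicit false

open Pool.Agent.helper49.Blk

namespace Pool.Agent.DD

theorem NCP_mem {G : Type} [Group G] (C : List (Subgroup G)) (g : G) :
    g ∈ NC C ↔ ∀ P ∈ C, g ∈ Subgroup.normalizer (P : Set G) := by
  unfold NC
  simp only [Subgroup.mem_iInf]

theorem NCP (hNPR : NPR_stmt) : NCP_stmt := by
  refine ⟨?_, ?_⟩
  · intro G _ C C' h
    ext g
    rw [NCP_mem, NCP_mem]
    exact forall_congr' fun P => by rw [h P]
  · intro A B _ _ C h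
    ext g
    rw [NCP_mem, Subgroup.mem_prod, NCP_mem, NCP_mem]
    constructor
    · intro hg
      constructor
      · intro P hP
        obtain ⟨Q, hQ, rfl⟩ := List.mem_map.1 hP
        have h1 := hg Q hQ
        rw [h Q hQ, (hNPR A B (p1 Q) (p2 Q)).1, Subgroup.mem_prod] at h1
        exact h1.1
      · intro P hP
        obtain ⟨Q, hQ, rfl⟩ := List.mem_map.1 hP
        have h1 := hg Q hQ
        rw [h Q hQ, (hNPR A B (p1 Q) (p2 Q)).1, Subgroup.mem_prod] at h1
        exact h1.2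
    · rintro ⟨h1, h2⟩ Q hQ
      rw [h Q hQ, (hNPR A B (p1 Q) (p2 Q)).1, Subgroup.mem_prod]
      exact ⟨h1 _ (List.mem_map.2 ⟨Q, hQ, rfl⟩), h2 _ (List.mem_map.2 ⟨Q, hQ, rfl⟩)⟩

end Pool.Agent.DD
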