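import Pool.Agent.helper12.DD.Spec

set_option autoImplicit false

open Pool.Agent.helper49.Blk

namespace Pool.Agent.DD

def TRI_iso {A B V : Type} [Group A] [Group B] [AddCommGroup V] [Module ℂ V] (e : A ≃* B)
    (ρ : Representation ℂ B V) :
    Subrepresentation ρ ≃o Subrepresentation (ρ.comp e.toMonoidHom) where
  toFun S := ⟨S.toSubmodule, fun g _ hv => S.apply_mem_toSubmodule (e g) hv⟩
  invFun S := ⟨S.toSubmodule, fun g v hv => by
    have h := S.apply_mem_toSubmodule (e.symm g) hv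
    have h2 : (ρ.comp e.toMonoidHom) (e.symm g) = ρ g := by
      rw [MonoidHom.comp_apply]
      congr 1
      exact e.apply_symm_apply g
    rwa [h2] at h⟩
  left_inv _ := rfl
  right_inv _ := rfl
  map_rel_iff' := Iff.rfl

theorem TRI_to {A B : Type} [Group A] [Group B] (e : A ≃* B) (ψ : B → ℂ) (h : ψ ∈ Irr B) :
    (fun a => ψ (e a)) ∈ Irr A := by
  obtain ⟨V, _, _, _, ρ, hρ, rfl⟩ := h
  refine ⟨V, inferInstance, inferInstance, inferInstance, ρ.comp e.toMonoidHom, ?_, rfl⟩
  exact (OrderIso.isSimpleOrder_iff (TRI_iso e ρ)).1 hρ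

theorem TRI : TRI_stmt := by
  intro A B _ _ e ψ
  refine ⟨TRI_to e ψ, fun h => ?_⟩
  have h1 := TRI_to e.symm _ h
  have h2 : (fun b => (fun a => ψ (e a)) (e.symm b)) = ψ := by
    funext b
    simp
  rwa [h2] at h1

end Pool.Agent.DD
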